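import Pool.Agent.Q276.CN.StmM
import Pool.Agent.Q276.PL.Mean2

/-! The mean value of the class numbers of the fields `ℚ(√d)`, `d` squarefree (after
`Pool.Agent.Q276.PL.Mean` and `Pool.Agent.Q276.PL.Mean2`). -/

set_option autoImplicit false

namespace Pool.Agent.Q90.CN

open Finset Filter NumberField Pool.Agent.H38R2.CG Pool.Agent.Q276.PL Pool.Agent.Q149.PL
open Pool.Agent.Q276.CN
open Pool.Agent.Q276.PL.Mean (chi_le lone_le five_le_dsc sqrt_dsc cl_le cl_good sum_union_le' G
  rpow_three_half exp_small G_half)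
open scoped Classical

noncomputable section

/-- the first moment of L(1, χ) over the fields of a block -/
theorem lone_block : ∃ (C : ℝ) (Y0 : ℕ), 0 ≤ C ∧ ∀ Y ≥ Y0,
    ∑ p ∈ (Finset.Ioc Y (2 * Y)).filter Squarefree, Lone (dsc p) ≤ C * Y := by
  obtain ⟨C, X0, h⟩ := Pool.Agent.Q79.PL.lav
  refine ⟨5 * |C|, max X0 3, by positivity, fun Y hY => ?_⟩
  have hY0 : X0 ≤ Y := (le_max_left _ _).trans hY
  have hY3 : 3 ≤ Y := (le_max_right _ _).trans hY
  have h1 := h Y hY0
  have h2 := h (4 * Y) (by omega)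
  have hYr : (3 : ℝ) ≤ Y := by exact_mod_cast hY3
  have hl : 1 ≤ Real.log Y := by
    rw [Real.le_log_iff_exp_le (by linarith)]
    linarith [Real.exp_one_lt_d9]
  have hl4 : Real.log Y ≤ Real.log ((4 * Y : ℕ) : ℝ) := by
    apply Real.log_le_log (by linarith)
    push_cast
    linarith
  -- split
  have hsplit : ∑ p ∈ (Finset.Ioc Y (2 * Y)).filter Squarefree, Lone (dsc p) =
      ∑ p ∈ ((Finset.Ioc Y (2 * Y)).filter Squarefree).filter (fun p => dsc p = p), Lone (dsc p) +
      ∑ p ∈ ((Finset.Ioc Y (2 * Y)).filter Squarefree).filter (fun p => ¬ dsc p = p),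
        Lone (dsc p) := (sum_filter_add_sum_filter_not _ _ _).symm
  have e1 : ∑ p ∈ ((Finset.Ioc Y (2 * Y)).filter Squarefree).filter (fun p => dsc p = p),
      Lone (dsc p) ≤ ∑ D ∈ (Finset.Ioc Y (2 * Y)).filter IsFund, Lone D := by
    have : ∑ p ∈ ((Finset.Ioc Y (2 * Y)).filter Squarefree).filter (fun p => dsc p = p),
        Lone (dsc p) = ∑ D ∈ ((Finset.Ioc Y (2 * Y)).filter Squarefree).filter
          (fun p => dsc p = p), Lone D := by
      refine sum_congr rfl fun p hp => ?_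
      rw [mem_filter] at hp
      rw [hp.2]
    rw [this]
    refine sum_le_sum_of_subset_of_nonneg ?_ ?_
    · intro p hp
      rw [mem_filter, mem_filter] at hp
      rw [mem_filter]
      refine ⟨hp.1.1, ?_⟩
      have h1p : 1 < p := by
        have := (Finset.mem_Ioc.1 hp.1.1).1
        omega
      have := isFund_dsc h1p hp.1.2
      rwa [hp.2] at this
    · intro D hD _
      rw [mem_filter] at hD
      exact Pool.Agent.Q79.PL.lnn _ hD.2
  have e2 : ∑ p ∈ ((Finset.Ioc Y (2 * Y)).filter Squarefree).filter (fun p => ¬ dsc p = p),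
      Lone (dsc p) ≤ ∑ D ∈ (Finset.Ioc (4 * Y) (2 * (4 * Y))).filter IsFund, Lone D := by
    have : ∑ p ∈ ((Finset.Ioc Y (2 * Y)).filter Squarefree).filter (fun p => ¬ dsc p = p),
        Lone (dsc p) = ∑ D ∈ (((Finset.Ioc Y (2 * Y)).filter Squarefree).filter
          (fun p => ¬ dsc p = p)).image dsc, Lone D := by
      rw [sum_image]
      intro a _ b _ hab
      exact dsc_inj hab
    rw [this]
    refine sum_le_sum_of_subset_of_nonneg ?_ ?_
    · intro D hD
      rw [mem_image] at hD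
      obtain ⟨p, hp, rfl⟩ := hD
      rw [mem_filter, mem_filter, Finset.mem_Ioc] at hp
      have h4 : dsc p = 4 * p := by
        rcases dsc_or p with h | h
        · exact absurd h hp.2
        · exact h
      rw [mem_filter, Finset.mem_Ioc]
      exact ⟨⟨by omega, by omega⟩, isFund_dsc (by omega) hp.1.2⟩
    · intro D hD _
      rw [mem_filter] at hD
      exact Pool.Agent.Q79.PL.lnn _ hD.2
  have h1' : C * (Y : ℝ) ≤ |C| * Y := mul_le_mul_of_nonneg_right (le_abs_self C) (by linarith)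
  have h2' : C * ((4 * Y : ℕ) : ℝ) ≤ 4 * |C| * Y := by
    calc C * ((4 * Y : ℕ) : ℝ) ≤ |C| * ((4 * Y : ℕ) : ℝ) :=
          mul_le_mul_of_nonneg_right (le_abs_self C) (by positivity)
      _ = 4 * |C| * Y := by
          push_cast
          ring
  rw [hsplit]
  linarith

theorem block (δ : ℝ) (hδ : 0 < δ) (hδ2 : δ < 1 / 2) : ∃ (C : ℝ) (Y0 : ℕ), 0 ≤ C ∧
    ∀ h : ℕ → ℕ, IsClS h → ∀ Y ≥ Y0,
    ∑ p ∈ (Finset.Ioc Y (2 * Y)).filter Squarefree, (h p : ℝ) ≤ C * G (3 / 2 - δ) Y := by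
  obtain ⟨C1, Y1, hC1, hL⟩ := lone_block
  obtain ⟨C2, hC2, hT⟩ := cl_le
  obtain ⟨M, hM⟩ := rgb_true δ hδ hδ2
  obtain ⟨X0, hX0⟩ := exp_small (δ / 8) (5 / 2) (by positivity)
  refine ⟨2 * C1 + 16 * |M| * C2, max (max Y1 X0) 3, by positivity, fun h hh Y hY => ?_⟩
  have hY1 : Y1 ≤ Y := ((le_max_left _ _).trans (le_max_left _ _)).trans hY
  have hYX : X0 ≤ Y := ((le_max_right _ _).trans (le_max_left _ _)).trans hY
  have hY3 : 3 ≤ Y := (le_max_right _ _).trans hY
  have hYr : (3 : ℝ) ≤ Y := by exact_mod_cast hY3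
  have hl : 1 ≤ Real.log Y := by
    rw [Real.le_log_iff_exp_le (by linarith)]
    linarith [Real.exp_one_lt_d9]
  have hl0 : 0 < Real.log Y := by linarith
  have hX2 : ((2 * Y : ℕ) : ℝ) = 2 * Y := by push_cast; ring
  have hl2 : Real.log Y ≤ Real.log ((2 * Y : ℕ) : ℝ) := by
    apply Real.log_le_log (by linarith)
    rw [hX2]
    linarith
  set L : ℝ := Real.log ((2 * Y : ℕ) : ℝ) with hLdef
  have hL0 : 0 < L := by linarith
  -- the exceptional set
  obtain ⟨Bd, hBd⟩ : ∃ Bd : Finset ℕ, Bd = (Finset.Icc 2 (2 * Y)).filter (fun d => Squarefree d ∧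
    SmallUnit (dsc d) (Real.exp (L ^ (3 / 2 - δ)))) := ⟨_, rfl⟩
  have hBc : (Bd.card : ℝ) ≤ |M| * (2 * Y) * Real.exp (-(L ^ (δ / 8))) := by
    rw [hBd]
    have h9 := hM (2 * Y) (by omega)
    rw [← hLdef] at h9
    refine h9.trans ?_
    apply mul_le_mul_of_nonneg_right _ (Real.exp_pos _).le
    rw [hX2]
    exact mul_le_mul_of_nonneg_right (le_abs_self M) (by linarith)
  have hpow : 0 < L ^ (3 / 2 - δ) := Real.rpow_pos_of_pos hL0 _
  have hs2 : √(2 * (Y : ℝ)) ≤ 2 * √(Y : ℝ) := by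
    rw [Real.sqrt_mul (by norm_num)]
    have : √(2 : ℝ) ≤ 2 := by
      rw [Real.sqrt_le_left (by norm_num)]
      norm_num
    exact mul_le_mul_of_nonneg_right this (Real.sqrt_nonneg _)
  -- pointwise
  have hpt : ∀ p ∈ (Finset.Ioc Y (2 * Y)).filter Squarefree, (h p : ℝ) ≤
      2 * √(Y : ℝ) / L ^ (3 / 2 - δ) * Lone (dsc p) +
        (if p ∈ Bd then C2 * (2 * √(Y : ℝ)) * (4 * Real.log Y) else 0) := by
    intro p hp
    rw [mem_filter, Finset.mem_Ioc] at hp
    obtain ⟨⟨hp1, hp2⟩, hpp⟩ := hp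
    have h1p : 1 < p := by omega
    have hsq : Squarefree p := hpp
    obtain ⟨K, i1, i2, hrk, hex, hcl⟩ := hh p h1p hpp
    have hlone : 0 ≤ Lone (dsc p) := Pool.Agent.Q79.PL.lnn _ (isFund_dsc h1p hsq)
    have hp0 : (0 : ℝ) < p := by exact_mod_cast (by omega : 0 < p)
    have hsp : √(p : ℝ) ≤ 2 * √(Y : ℝ) := by
      refine le_trans (Real.sqrt_le_sqrt ?_) hs2
      rw [← hX2]
      exact_mod_cast hp2
    split_ifs with hb
    · have h1 := hT K p h1p hsq hrk hex
      rw [← hcl] at h1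
      have h2 : Real.log (4 * (p : ℝ)) ≤ 4 * Real.log Y := by
        have h3 : (4 * (p : ℝ)) ≤ (Y : ℝ) ^ 4 := by
          have h4 : (p : ℝ) ≤ 2 * Y := by
            rw [← hX2]
            exact_mod_cast hp2
          nlinarith [pow_pos (by linarith : (0 : ℝ) < Y) 3,
            pow_le_pow_left₀ (by norm_num) hYr 3]
        calc Real.log (4 * (p : ℝ)) ≤ Real.log ((Y : ℝ) ^ 4) :=
              Real.log_le_log (by positivity) h3
          _ = 4 * Real.log Y := by
              rw [Real.log_pow]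
              norm_num
      have h5 : 0 ≤ Real.log (4 * (p : ℝ)) := by
        apply Real.log_nonneg
        have : (1 : ℝ) ≤ p := by exact_mod_cast h1p.le
        linarith
      have h6 : (h p : ℝ) ≤ C2 * (2 * √(Y : ℝ)) * (4 * Real.log Y) := by
        refine h1.trans ?_
        apply mul_le_mul _ h2 h5 (by positivity)
        exact mul_le_mul_of_nonneg_left hsp (by linarith)
      have h7 : 0 ≤ 2 * √(Y : ℝ) / L ^ (3 / 2 - δ) * Lone (dsc p) := by positivity
      linarith
    · have hns : ¬ SmallUnit (dsc p) (Real.exp (L ^ (3 / 2 - δ))) := by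
        intro hsu
        apply hb
        rw [hBd, mem_filter, Finset.mem_Icc]
        exact ⟨⟨h1p, hp2⟩, hsq, hsu⟩
      have h1 := cl_good K p h1p hsq hrk hex _ hpow hns
      rw [← hcl] at h1
      refine h1.trans ?_
      rw [add_zero, div_mul_eq_mul_div]
      apply div_le_div_of_nonneg_right _ hpow.le
      exact mul_le_mul_of_nonneg_right hsp hlone
  have hsum := sum_le_sum hpt
  rw [sum_add_distrib, ← mul_sum, ← sum_filter] at hsum
  -- first part
  have hA : 2 * √(Y : ℝ) / L ^ (3 / 2 - δ) *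
      ∑ p ∈ (Finset.Ioc Y (2 * Y)).filter Squarefree, Lone (dsc p) ≤
      2 * C1 * G (3 / 2 - δ) Y := by
    have h1 := hL Y hY1
    have h2 : 2 * √(Y : ℝ) / L ^ (3 / 2 - δ) ≤ 2 * √(Y : ℝ) / Real.log Y ^ (3 / 2 - δ) := by
      apply div_le_div_of_nonneg_left (by positivity) (Real.rpow_pos_of_pos hl0 _)
      exact Real.rpow_le_rpow hl0.le hl2 (by linarith)
    have h3 : 0 ≤ C1 * (Y : ℝ) := by positivity
    calc 2 * √(Y : ℝ) / L ^ (3 / 2 - δ) *
        ∑ p ∈ (Finset.Ioc Y (2 * Y)).filter Squarefree, Lone (dsc p) ≤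
        2 * √(Y : ℝ) / L ^ (3 / 2 - δ) * (C1 * Y) :=
          mul_le_mul_of_nonneg_left h1 (by positivity)
      _ ≤ 2 * √(Y : ℝ) / Real.log Y ^ (3 / 2 - δ) * (C1 * Y) :=
          mul_le_mul_of_nonneg_right h2 h3
      _ = 2 * C1 * G (3 / 2 - δ) Y := by
          unfold G
          rw [rpow_three_half (by linarith)]
          ring
  -- second part
  have hB : ∑ a ∈ ((Finset.Ioc Y (2 * Y)).filter Squarefree).filter (fun a => a ∈ Bd),
      C2 * (2 * √(Y : ℝ)) * (4 * Real.log Y) ≤ 16 * |M| * C2 * G (3 / 2 - δ) Y := by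
    rw [sum_const, nsmul_eq_mul]
    have h1 : ((((Finset.Ioc Y (2 * Y)).filter Squarefree).filter (fun a => a ∈ Bd)).card : ℝ) ≤
        Bd.card := by
      exact_mod_cast card_le_card fun a ha => (mem_filter.1 ha).2
    have h2 := hX0 Y hYX
    have hexp : Real.exp (-(L ^ (δ / 8))) ≤ Real.exp (-(Real.log Y ^ (δ / 8))) := by
      apply Real.exp_le_exp.2
      have := Real.rpow_le_rpow hl0.le hl2 (by positivity : 0 ≤ δ / 8)
      linarith
    have h3 : 0 ≤ C2 * (2 * √(Y : ℝ)) * (4 * Real.log Y) := by positivity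
    have hsplit : Real.log Y ^ (5 / 2 : ℝ) = Real.log Y ^ (3 / 2 - δ) * Real.log Y *
        Real.log Y ^ δ := by
      rw [show (5 / 2 : ℝ) = (3 / 2 - δ) + 1 + δ by ring, Real.rpow_add hl0,
        Real.rpow_add hl0, Real.rpow_one]
    have hδ1 : 1 ≤ Real.log Y ^ δ := Real.one_le_rpow hl hδ.le
    have hp1 : 0 < Real.log Y ^ (3 / 2 - δ) := Real.rpow_pos_of_pos hl0 _
    have h4 : Real.exp (-(Real.log Y ^ (δ / 8))) * Real.log Y ≤ 1 / Real.log Y ^ (3 / 2 - δ) := by
      rw [le_div_iff₀ hp1]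
      have h5 : 0 ≤ Real.log Y ^ (3 / 2 - δ) * Real.log Y *
          Real.exp (-(Real.log Y ^ (δ / 8))) := by positivity
      rw [hsplit] at h2
      nlinarith
    calc ((((Finset.Ioc Y (2 * Y)).filter Squarefree).filter (fun a => a ∈ Bd)).card : ℝ) *
        (C2 * (2 * √(Y : ℝ)) * (4 * Real.log Y)) ≤
        (|M| * (2 * Y) * Real.exp (-(Real.log Y ^ (δ / 8)))) *
          (C2 * (2 * √(Y : ℝ)) * (4 * Real.log Y)) := by
          apply mul_le_mul_of_nonneg_right _ h3
          refine h1.trans (hBc.trans ?_)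
          exact mul_le_mul_of_nonneg_left hexp (by positivity)
      _ = 16 * |M| * C2 * (√(Y : ℝ) * Y) *
          (Real.exp (-(Real.log Y ^ (δ / 8))) * Real.log Y) := by ring
      _ ≤ 16 * |M| * C2 * (√(Y : ℝ) * Y) * (1 / Real.log Y ^ (3 / 2 - δ)) :=
          mul_le_mul_of_nonneg_left h4 (by positivity)
      _ = 16 * |M| * C2 * G (3 / 2 - δ) Y := by
          unfold G
          rw [rpow_three_half (by linarith)]
          ring
  have : (2 * C1 + 16 * |M| * C2) * G (3 / 2 - δ) Y = 2 * C1 * G (3 / 2 - δ) Y +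
      16 * |M| * C2 * G (3 / 2 - δ) Y := by ring
  rw [this]
  linarith

theorem mean0 (δ : ℝ) (hδ : 0 < δ) (hδ2 : δ < 1 / 2) : ∃ C : ℝ, 0 ≤ C ∧ ∀ h : ℕ → ℕ, IsClS h →
    ∀ N : ℕ, 3 ≤ N → ∑ p ∈ (Finset.Icc 2 N).filter Squarefree, (h p : ℝ) ≤
      C * G (3 / 2 - δ) N := by
  obtain ⟨C, Y0, hC0, hb⟩ := block δ hδ hδ2
  obtain ⟨C2, hC2, hT⟩ := cl_le
  obtain ⟨a, ha⟩ : ∃ a, a = 3 / 2 - δ := ⟨_, rfl⟩
  have ha0 : 0 ≤ a := by linarith
  have ha3 : a ≤ 3 := by linarith
  rw [← ha] at hb ⊢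
  obtain ⟨N1, hN1⟩ : ∃ N1, N1 = max (2 * Y0 + 2) ⌈Real.exp 40⌉₊ := ⟨_, rfl⟩
  have hNY : 2 * Y0 + 2 ≤ N1 := by rw [hN1]; exact le_max_left _ _
  have hNe : Real.exp 40 ≤ N1 := by
    refine (Nat.le_ceil _).trans ?_
    rw [hN1]
    exact_mod_cast le_max_right _ _
  have he : (40 : ℝ) + 1 ≤ Real.exp 40 := Real.add_one_le_exp 40
  have hN1r : (41 : ℝ) ≤ N1 := by linarith
  have hl1 : 40 ≤ Real.log N1 := (Real.le_log_iff_exp_le (by linarith)).2 hNe
  obtain ⟨B, hB⟩ : ∃ B : ℝ, B = N1 * (C2 * √(N1 : ℝ) * Real.log (4 * N1)) := ⟨_, rfl⟩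
  have hl4 : 0 ≤ Real.log (4 * (N1 : ℝ)) := Real.log_nonneg (by linarith)
  have hB0 : 0 ≤ B := by rw [hB]; positivity
  obtain ⟨C₁, hC₁⟩ : ∃ C₁ : ℝ, C₁ = 3 * (C + C2) + B * Real.log N1 ^ 3 := ⟨_, rfl⟩
  have hC₁a : 3 * (C + C2) ≤ C₁ := by
    rw [hC₁]
    have : 0 ≤ B * Real.log N1 ^ 3 := by positivity
    linarith
  have hC₁b : B * Real.log N1 ^ 3 ≤ C₁ := by rw [hC₁]; linarith
  have hC₁0 : 0 ≤ C₁ := by linarith
  refine ⟨C₁, hC₁0, fun h hh N => ?_⟩
  have hcl : ∀ p : ℕ, 1 < p → Squarefree p →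
      (h p : ℝ) ≤ C2 * √(p : ℝ) * Real.log (4 * p) := by
    intro p hp1 hp
    obtain ⟨K, i1, i2, hrk, hex, hcl⟩ := hh p hp1 hp
    rw [hcl]
    exact hT K p hp1 hp hrk hex
  induction N using Nat.strong_induction_on with
  | _ N ih =>
    intro hN3
    have hN3r : (3 : ℝ) ≤ N := by exact_mod_cast hN3
    have hlN : 1 ≤ Real.log N := by
      rw [Real.le_log_iff_exp_le (by linarith)]
      linarith [Real.exp_one_lt_d9]
    have hG0 : 0 ≤ G a N := by
      unfold G
      have : 0 ≤ Real.log N := by linarith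
      positivity
    by_cases hN : N1 ≤ N
    · have hNe' : Real.exp 40 ≤ N := hNe.trans (by exact_mod_cast hN)
      have hN41 : 41 ≤ N := by
        have : (41 : ℝ) ≤ N := by linarith
        exact_mod_cast this
      obtain ⟨g1, g2⟩ := G_half a ha0 ha3 N hNe'
      obtain ⟨Y, hY⟩ : ∃ Y, Y = N / 2 := ⟨_, rfl⟩
      rw [← hY] at g1
      have hY3 : 3 ≤ Y := by omega
      have h1 := ih Y (by omega) hY3
      have h2 := hb h hh Y (by omega)
      have hsub : (Finset.Icc 2 N).filter Squarefree ⊆ ((Finset.Icc 2 Y).filter Squarefree ∪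
          (Finset.Ioc Y (2 * Y)).filter Squarefree) ∪ ({N} : Finset ℕ).filter Squarefree := by
        intro p hp
        rw [mem_filter, Finset.mem_Icc] at hp
        rw [mem_union, mem_union, mem_filter, mem_filter, mem_filter, Finset.mem_Icc,
          Finset.mem_Ioc, mem_singleton]
        by_cases c1 : p ≤ Y
        · exact Or.inl (Or.inl ⟨⟨hp.1.1, c1⟩, hp.2⟩)
        · by_cases c2 : p ≤ 2 * Y
          · exact Or.inl (Or.inr ⟨⟨by omega, c2⟩, hp.2⟩)
          · exact Or.inr ⟨by omega, hp.2⟩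
      have h3 : ∑ p ∈ (Finset.Icc 2 N).filter Squarefree, (h p : ℝ) ≤
          (∑ p ∈ (Finset.Icc 2 Y).filter Squarefree, (h p : ℝ) +
          ∑ p ∈ (Finset.Ioc Y (2 * Y)).filter Squarefree, (h p : ℝ)) +
          ∑ p ∈ ({N} : Finset ℕ).filter Squarefree, (h p : ℝ) := by
        refine (sum_le_sum_of_subset_of_nonneg hsub fun p _ _ => Nat.cast_nonneg _).trans ?_
        refine (sum_union_le' _ _ _ fun p => Nat.cast_nonneg _).trans ?_
        gcongr
        exact sum_union_le' _ _ _ fun p => Nat.cast_nonneg _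
      have h4 : ∑ p ∈ ({N} : Finset ℕ).filter Squarefree, (h p : ℝ) ≤ C2 * G a N := by
        by_cases hpr : Squarefree N
        · rw [filter_singleton, if_pos hpr, sum_singleton]
          refine (hcl N (by omega) hpr).trans ?_
          rw [mul_assoc]
          exact mul_le_mul_of_nonneg_left g2 (by linarith)
        · rw [filter_singleton, if_neg hpr, sum_empty]
          have : 0 ≤ C2 := by linarith
          positivity
      have h5 : C₁ * G a Y ≤ C₁ * (9 / 20 * G a N) := mul_le_mul_of_nonneg_left g1 hC₁0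
      have h6 : C * G a Y ≤ C * (9 / 20 * G a N) := mul_le_mul_of_nonneg_left g1 hC0
      have h7 : (9 / 20 * C₁ + 9 / 20 * C + C2) * G a N ≤ C₁ * G a N := by
        apply mul_le_mul_of_nonneg_right _ hG0
        linarith
      linarith
    · push Not at hN
      have hNr : (N : ℝ) ≤ N1 := by exact_mod_cast hN.le
      have h1 : ∑ p ∈ (Finset.Icc 2 N).filter Squarefree, (h p : ℝ) ≤ B := by
        have h2 : ∀ p ∈ (Finset.Icc 2 N).filter Squarefree, (h p : ℝ) ≤
            C2 * √(N1 : ℝ) * Real.log (4 * N1) := by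
          intro p hp
          rw [mem_filter, Finset.mem_Icc] at hp
          have hpr : (p : ℝ) ≤ N1 := by
            exact_mod_cast (by omega : p ≤ N1)
          have hp0 : (1 : ℝ) ≤ p := by exact_mod_cast (by omega : 1 ≤ p)
          refine (hcl p hp.1.1 hp.2).trans ?_
          apply mul_le_mul
          · exact mul_le_mul_of_nonneg_left (Real.sqrt_le_sqrt hpr) (by linarith)
          · exact Real.log_le_log (by linarith) (by linarith)
          · exact Real.log_nonneg (by linarith)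
          · positivity
        refine (sum_le_card_nsmul _ _ _ h2).trans ?_
        rw [nsmul_eq_mul, hB]
        apply mul_le_mul_of_nonneg_right _ (by positivity)
        have h3 : ((Finset.Icc 2 N).filter Squarefree).card ≤ N := by
          refine (card_filter_le _ _).trans ?_
          rw [Nat.card_Icc]
          omega
        calc ((((Finset.Icc 2 N).filter Squarefree).card : ℕ) : ℝ) ≤ N := by exact_mod_cast h3
          _ ≤ N1 := hNr
      have h8 : 1 / Real.log N1 ^ 3 ≤ G a N := by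
        unfold G
        have h9 : 1 ≤ (N : ℝ) ^ (3 / 2 : ℝ) := Real.one_le_rpow (by linarith) (by norm_num)
        have h10 : Real.log N ^ a ≤ Real.log N1 ^ 3 := by
          have h11 : Real.log N ≤ Real.log N1 := Real.log_le_log (by linarith) hNr
          calc Real.log N ^ a ≤ Real.log N1 ^ a := Real.rpow_le_rpow (by linarith) h11 ha0
            _ ≤ Real.log N1 ^ (3 : ℝ) :=
                Real.rpow_le_rpow_of_exponent_le (by linarith) ha3
            _ = Real.log N1 ^ 3 := by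
                rw [← Real.rpow_natCast]
                norm_num
        have h12 : 0 < Real.log N ^ a := Real.rpow_pos_of_pos (by linarith) _
        exact div_le_div₀ (by positivity) h9 h12 h10
      have hp3 : 0 < Real.log N1 ^ 3 := by positivity
      calc ∑ p ∈ (Finset.Icc 2 N).filter Squarefree, (h p : ℝ) ≤ B := h1
        _ = B * Real.log N1 ^ 3 * (1 / Real.log N1 ^ 3) := by field_simp
        _ ≤ C₁ * G a N := mul_le_mul hC₁b h8 (by positivity) hC₁0

/-- the mean value of the class number over the squarefree numbers -/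
theorem msf : StmtMSF := by
  intro δ hδ
  obtain ⟨C, hC, hm⟩ := mean0 (min δ (1 / 4)) (lt_min hδ (by norm_num))
    (lt_of_le_of_lt (min_le_right _ _) (by norm_num))
  refine ⟨C, fun h hh N hN => (hm h hh N hN).trans ?_⟩
  have hNr : (3 : ℝ) ≤ N := by exact_mod_cast hN
  have hl : 1 ≤ Real.log N := by
    rw [Real.le_log_iff_exp_le (by linarith)]
    linarith [Real.exp_one_lt_d9]
  unfold G
  apply mul_le_mul_of_nonneg_left _ hC
  apply div_le_div_of_nonneg_left (by positivity) (Real.rpow_pos_of_pos (by linarith) _)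
  exact Real.rpow_le_rpow_of_exponent_le hl (by linarith [min_le_left δ (1 / 4)])

end

end Pool.Agent.Q90.CN
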